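import Mathlib
import Pool.Agent.NH70.PR.Main

set_option autoImplicit false

/-!
# Cocycles of the groups with the profinite completion of a given group

Let `Γ` and `Λ` be finitely generated groups with isomorphic profinite completions, and let `𝕜` be the field
of complex numbers, or any algebraically closed field with `2 ^ κ` elements for some infinite cardinal `κ`.
If `Γ` has `r` generators and `m` relators then `r n - m n ≤ dim Z¹(Λ, ρ) ≤ r n` for ALL representations
`ρ : Λ → GL_n(𝕜)` (so `dim Z¹(Λ, ρ) = r n` if `Γ` is free of rank `r`), and if `Γ` is the fundamental group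
of the closed orientable surface of genus `g` then `dim Z¹(Λ, ρ) = (2 g - 1) n + dim (𝕜ⁿ)^{*Λ}`.

Free groups and surface groups of genus `g ≥ 2` are lattices in `PSL(2, ℝ)`. Nothing is assumed about `Λ`
except the isomorphism of the completions; the theorem says that the cohomology of degree one of `Λ` with any
finite-dimensional coefficients has the dimension that is known for `Γ`.
-/

namespace Pool.Agent.Results.MP_305fdd_al.CocycleDimensions

open Matrix Pool.Agent.H828.PA Pool.Agent.NH70.PR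

/-- the theorem over the field `𝕜` -/
def Holds (𝕜 : Type) [Field 𝕜] : Prop :=
  ∀ (Γ Λ : Type) [Group Γ] [Group Λ] [Group.FG Γ] [Group.FG Λ], ProfinitelyIsomorphic Γ Λ →
    (∀ (n : ℕ) (ρ : Λ →* GL (Fin n) 𝕜), FiniteDimensional 𝕜 (Z1 ρ)) ∧
    (∀ r m, HasPresentation Γ r m → Bounds 𝕜 Λ r m) ∧
    (∀ g, IsSurfaceGroup Γ g → DimSurface 𝕜 Λ g)

/-- **Main theorem.** -/
theorem result :
    (∀ (𝕜 : Type) [Field 𝕜] [IsAlgClosed 𝕜] (X : Type) [Infinite X],
      Cardinal.mk 𝕜 = 2 ^ Cardinal.mk X → Holds 𝕜) ∧ Holds ℂ := by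
  have key : ∀ (𝕜 : Type) [Field 𝕜] [IsAlgClosed 𝕜] (X : Type) [Infinite X],
      Cardinal.mk 𝕜 = 2 ^ Cardinal.mk X → Holds 𝕜 := by
    intro 𝕜 _ _ X _ hX Γ Λ _ _ _ _ h
    obtain ⟨u⟩ := exists_up 𝕜 X hX
    obtain ⟨h1, -, h2⟩ := consequences (same_reps u h)
    exact ⟨fun n ρ => finite_Z1 ρ, h1, h2⟩
  refine ⟨key, key ℂ ℕ ?_⟩
  rw [Cardinal.mk_complex, Cardinal.mk_nat, Cardinal.two_power_aleph0]

end Pool.Agent.Results.MP_305fdd_al.CocycleDimensions
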