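import Mathlib
import Pool.Agent.NH70.PR.Main

set_option autoImplicit false

/-!
# Groups with the profinite completion of a free group: lifting of homomorphisms

Let `Λ` be a finitely generated group with the profinite completion of a free group of finite rank, and let
`𝕜` be the field of complex numbers, or any algebraically closed field with `2 ^ κ` elements for some infinite
cardinal `κ`. Then `Λ` has the lifting property of free groups for the unit groups of algebras: if `A → B` is
a surjective homomorphism of finite-dimensional `𝕜`-algebras, every homomorphism `Λ → Bˣ` can be lifted to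
`Aˣ`. In particular every representation of `Λ` on `𝕜ⁿ` has deformations with any given tangent vector to
all orders: the schemes of the representations of `Λ` over `𝕜` are smooth.

Free groups of rank `≥ 2` are lattices in `PSL(2, ℝ)`; it is not known whether `Λ`, if residually finite,
has to be a free group.
-/

namespace Pool.Agent.Results.MP_305fdd_al.LiftingForFreeGenus

open Pool.Agent.H828.PA Pool.Agent.NH70.PR

/-- the theorem over the field `𝕜` -/
def Holds (𝕜 : Type) [Field 𝕜] : Prop :=
  ∀ (r : ℕ) (Λ : Type) [Group Λ] [Group.FG Λ], ProfinitelyIsomorphic (FreeGroup (Fin r)) Λ →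
    HasLifts 𝕜 Λ

/-- **Main theorem.** -/
theorem result :
    (∀ (𝕜 : Type) [Field 𝕜] [IsAlgClosed 𝕜] (X : Type) [Infinite X],
      Cardinal.mk 𝕜 = 2 ^ Cardinal.mk X → Holds 𝕜) ∧ Holds ℂ := by
  have key : ∀ (𝕜 : Type) [Field 𝕜] [IsAlgClosed 𝕜] (X : Type) [Infinite X],
      Cardinal.mk 𝕜 = 2 ^ Cardinal.mk X → Holds 𝕜 := by
    intro 𝕜 _ _ X _ hX r Λ _ _ h
    obtain ⟨u⟩ := exists_up 𝕜 X hX
    exact ((consequences (same_reps u h)).2.1 r ⟨MulEquiv.refl _⟩).1
  refine ⟨key, key ℂ ℕ ?_⟩
  rw [Cardinal.mk_complex, Cardinal.mk_nat, Cardinal.two_power_aleph0]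

end Pool.Agent.Results.MP_305fdd_al.LiftingForFreeGenus
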