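import Mathlib
import Pool.Agent.NH70.PR.Main

set_option autoImplicit false

/-!
# Groups with isomorphic profinite completions have the same representations over `ℂ`

Let `Γ` and `Λ` be finitely generated groups with isomorphic profinite completions (for instance, `Γ` is a
lattice in `PSL(2, ℝ)` or `PSL(2, ℂ)`), and let `𝕜` be the field of complex numbers, or any algebraically
closed field with `2 ^ κ` elements for some infinite cardinal `κ`.

The homomorphisms of `Γ` and of `Λ` to the unit groups `Aˣ` of the finite-dimensional `𝕜`-algebras `A`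
correspond to each other, naturally in `A`; corresponding homomorphisms have the same Zariski closure, and
corresponding representations `ρ`, `σ` on `𝕜ⁿ` have the same invariants and spaces of cocycles of the same
finite dimension, so `dim H¹(Γ, ρ) = dim H¹(Λ, σ)`.

No linearity or residual finiteness of the groups and no integrality of the representations is assumed, and
the homomorphisms need not have finite image.
-/

namespace Pool.Agent.Results.MP_305fdd_al.SameRepresentations

open Matrix Pool.Agent.H828.PA Pool.Agent.NH70.PR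

/-- the theorem over the field `𝕜` -/
def Holds (𝕜 : Type) [Field 𝕜] : Prop :=
  ∀ (Γ Λ : Type) [Group Γ] [Group Λ] [Group.FG Γ] [Group.FG Λ], ProfinitelyIsomorphic Γ Λ →
    SameRepresentations 𝕜 Γ Λ ∧
    ∀ (n : ℕ) (ρ : Λ →* GL (Fin n) 𝕜), FiniteDimensional 𝕜 (Z1 ρ)

/-- **Main theorem.** -/
theorem result :
    (∀ (𝕜 : Type) [Field 𝕜] [IsAlgClosed 𝕜] (X : Type) [Infinite X],
      Cardinal.mk 𝕜 = 2 ^ Cardinal.mk X → Holds 𝕜) ∧ Holds ℂ := by
  have key : ∀ (𝕜 : Type) [Field 𝕜] [IsAlgClosed 𝕜] (X : Type) [Infinite X],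
      Cardinal.mk 𝕜 = 2 ^ Cardinal.mk X → Holds 𝕜 := by
    intro 𝕜 _ _ X _ hX Γ Λ _ _ _ _ h
    obtain ⟨u⟩ := exists_up 𝕜 X hX
    exact ⟨same_reps u h, fun n ρ => finite_Z1 ρ⟩
  refine ⟨key, key ℂ ℕ ?_⟩
  rw [Cardinal.mk_complex, Cardinal.mk_nat, Cardinal.two_power_aleph0]

end Pool.Agent.Results.MP_305fdd_al.SameRepresentations
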